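import Pool.Agent.W4helper65.NP.Unif

set_option autoImplicit false

namespace Pool.Agent.W4helper65.NP

open Finset Filter Topology

theorem lim_s : Tendsto (fun X : ℕ => Real.log (X : ℝ)) atTop atTop :=
  Real.tendsto_log_atTop.comp tendsto_natCast_atTop_atTop

theorem lim_t : Tendsto (fun X : ℕ => Real.log (Real.log (X : ℝ))) atTop atTop :=
  Real.tendsto_log_atTop.comp lim_s

theorem lim_w : Tendsto (fun X : ℕ => (Real.log (Real.log (X : ℝ)))⁻¹) atTop (𝓝 0) :=
  tendsto_inv_atTop_zero.comp lim_t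

theorem lim_st : Tendsto (fun X : ℕ => Real.log (X : ℝ) * Real.log (Real.log (X : ℝ))) atTop atTop :=
  lim_s.atTop_mul_atTop₀ lim_t

theorem lim_u : Tendsto (fun X : ℕ => √(Real.log (X : ℝ) * Real.log (Real.log (X : ℝ)))) atTop
    atTop := by
  have h : Tendsto (fun x : ℝ => √x) atTop atTop := by
    simp_rw [Real.sqrt_eq_rpow]
    exact tendsto_rpow_atTop (by norm_num)
  exact h.comp lim_st

theorem lim_q : Tendsto (fun X : ℕ => (√(Real.log (X : ℝ) * Real.log (Real.log (X : ℝ))))⁻¹) atTop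
    (𝓝 0) := tendsto_inv_atTop_zero.comp lim_u

theorem lim_r : Tendsto (fun X : ℕ => Real.log (Real.log (X : ℝ)) /
    √(Real.log (X : ℝ) * Real.log (Real.log (X : ℝ)))) atTop (𝓝 0) := by
  have h1 : Tendsto (fun s : ℝ => Real.log s / s) atTop (𝓝 0) :=
    Real.isLittleO_log_id_atTop.tendsto_div_nhds_zero
  have h2 : Tendsto (fun X : ℕ => √(Real.log (Real.log (X : ℝ)) / Real.log (X : ℝ))) atTop
      (𝓝 0) := by
    have := (Real.continuous_sqrt.tendsto 0).comp (h1.comp lim_s)
    rw [Real.sqrt_zero] at this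
    exact this
  refine h2.congr' ?_
  filter_upwards [lim_s.eventually_gt_atTop 0, lim_t.eventually_gt_atTop 0] with X hs ht
  rw [Real.sqrt_div' _ hs.le, Real.sqrt_mul hs.le]
  have e : Real.log (Real.log (X : ℝ)) = √(Real.log (Real.log (X : ℝ))) * √(Real.log (Real.log (X : ℝ))) :=
    (Real.mul_self_sqrt ht.le).symm
  have p1 : 0 < √(Real.log (Real.log (X : ℝ))) := Real.sqrt_pos.2 ht
  have p2 : 0 < √(Real.log (X : ℝ)) := Real.sqrt_pos.2 hs
  rw [div_eq_div_iff (by positivity) (by positivity)]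
  nth_rewrite 3 [e]
  ring

theorem almost_all (α β γ : ℝ) (hα : 0 < α) (hβ : 0 ≤ β) (h : 2 * α * (α + β + γ) < 1) :
    ∃ X₀ : ℕ, ∀ X ≥ X₀, ∀ l : ℕ,
      (l : ℝ) ≤ Real.exp (β * √(Real.log X * Real.log (Real.log X))) →
      ((Exc l ⌈α * √(Real.log X / Real.log (Real.log X))⌉₊ X).card : ℝ)
        ≤ X * Real.exp (-(γ * √(Real.log X * Real.log (Real.log X)))) := by
  obtain ⟨C₀, hC₀, hU₀⟩ := uniform
  set C : ℝ := max C₀ 1 with hC
  have hC1 : 1 ≤ C := le_max_right _ _
  have hC0 : 0 < C := by linarith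
  have hlC : 0 ≤ Real.log C := Real.log_nonneg hC1
  set G : ℕ → ℝ := fun X =>
    (Real.log 2 + Real.log C) * (√(Real.log (X : ℝ) * Real.log (Real.log (X : ℝ))))⁻¹ + β + α
      + α * Real.log C * (Real.log (Real.log (X : ℝ)))⁻¹
      + Real.log (Real.log (X : ℝ)) / √(Real.log (X : ℝ) * Real.log (Real.log (X : ℝ)))
      - 1 / (2 * α + 3 * (Real.log (Real.log (X : ℝ)) /
          √(Real.log (X : ℝ) * Real.log (Real.log (X : ℝ))))) with hG
  have hGl : Tendsto G atTop (𝓝 ((Real.log 2 + Real.log C) * 0 + β + α + α * Real.log C * 0 + 0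
      - 1 / (2 * α + 3 * 0))) := by
    refine Tendsto.sub ?_ ?_
    · exact ((((lim_q.const_mul _).add_const _).add_const _).add (lim_w.const_mul _)).add lim_r
    · refine tendsto_const_nhds.div ((lim_r.const_mul 3).const_add _) ?_
      have : 0 < 2 * α + 3 * 0 := by positivity
      exact this.ne'
  have hneg : (Real.log 2 + Real.log C) * 0 + β + α + α * Real.log C * 0 + 0
      - 1 / (2 * α + 3 * 0) < -γ := by
    have h2 : α + β + γ < 1 / (2 * α) := by
      rw [lt_div_iff₀ (by positivity)]; linarith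
    have h3 : 1 / (2 * α + 3 * 0) = 1 / (2 * α) := by norm_num
    rw [h3]
    linarith
  have hev := hGl.eventually_lt_const hneg
  have hev2 := (hev.and (lim_s.eventually_gt_atTop 0)).and
    ((lim_t.eventually_gt_atTop 0).and (eventually_ge_atTop 2))
  obtain ⟨X₀, hX₀⟩ := eventually_atTop.1 hev2
  refine ⟨X₀, ?_⟩
  intro X hX l hl
  obtain ⟨⟨hg, hs⟩, ht, hX2⟩ := hX₀ X hX
  simp only [hG] at hg
  set s := Real.log (X : ℝ) with hsd
  set t := Real.log s with htd
  set u := √(s * t) with hud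
  have hu : 0 < u := Real.sqrt_pos.2 (by positivity)
  have huu : u * u = s * t := Real.mul_self_sqrt (by positivity)
  have hX0 : (0 : ℝ) < X := by exact_mod_cast (show 0 < X by omega)
  have hut : √(s / t) = u / t := by
    rw [Real.sqrt_div' _ ht.le, hud, Real.sqrt_mul hs.le]
    have p1 : 0 < √t := Real.sqrt_pos.2 ht
    have e : t = √t * √t := (Real.mul_self_sqrt ht.le).symm
    rw [div_eq_div_iff p1.ne' ht.ne']
    nth_rewrite 1 [e]
    ring
  rw [hut]
  set M : ℕ := ⌈α * (u / t)⌉₊ with hM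
  have hM1 : 1 ≤ M := Nat.one_le_iff_ne_zero.2 (by
    rw [hM]; exact (Nat.ceil_pos.2 (by positivity)).ne')
  have hMle : (M : ℝ) ≤ α * (u / t) + 1 := (Nat.ceil_lt_add_one (by positivity)).le
  have hb := hU₀ l M X hM1 hX2
  have hb1 : ((Exc l M X).card : ℝ)
      ≤ (l + 1) * (X : ℝ) ^ (1 - 1 / (2 * (M : ℝ) + 1)) * (C * s) ^ M := by
    refine hb.trans ?_
    have : C₀ * s ≤ C * s := mul_le_mul_of_nonneg_right (le_max_left _ _) hs.le
    gcongr
  refine hb1.trans ?_
  have e1 : (X : ℝ) ^ (1 - 1 / (2 * (M : ℝ) + 1)) = X * Real.exp (-(s / (2 * (M : ℝ) + 1))) := by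
    rw [Real.rpow_def_of_pos hX0, ← hsd]
    have e0 : (X : ℝ) = Real.exp s := by rw [hsd, Real.exp_log hX0]
    rw [e0, ← Real.exp_add]
    congr 1
    ring
  have e2 : (C * s) ^ M = Real.exp (M * (Real.log C + t)) := by
    rw [htd, ← Real.log_mul hC0.ne' hs.ne', ← Real.log_pow, Real.exp_log (by positivity)]
  have e3 : (l : ℝ) + 1 ≤ Real.exp (Real.log 2 + β * u) := by
    rw [Real.exp_add, Real.exp_log (by norm_num)]
    have : 1 ≤ Real.exp (β * u) := Real.one_le_exp (by positivity)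
    linarith
  rw [e1, e2]
  have e4 : M * (Real.log C + t) ≤ (α * (u / t) + 1) * (Real.log C + t) := by gcongr
  have e5 : u * u / (t * (2 * α * (u / t) + 3)) ≤ s / (2 * (M : ℝ) + 1) := by
    rw [huu, mul_comm s t, mul_div_mul_left _ _ ht.ne']
    refine div_le_div_of_nonneg_left hs.le (by positivity) ?_
    have : 2 * α * (u / t) = 2 * (α * (u / t)) := by ring
    rw [this]
    linarith
  have e6 : Real.log 2 + β * u + (α * (u / t) + 1) * (Real.log C + t)
      - u * u / (t * (2 * α * (u / t) + 3)) ≤ -(γ * u) := by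
    have e7 : Real.log 2 + β * u + (α * (u / t) + 1) * (Real.log C + t)
      - u * u / (t * (2 * α * (u / t) + 3)) = ((Real.log 2 + Real.log C) * u⁻¹ + β + α
      + α * Real.log C * t⁻¹ + t / u - 1 / (2 * α + 3 * (t / u))) * u := by
      have h8 : t * (2 * α * (u / t) + 3) = 2 * α * u + 3 * t := by field_simp
      rw [h8]
      have h9 : 0 < 2 * α * u + 3 * t := by positivity
      have h10 : 1 / (2 * α + 3 * (t / u)) = u / (2 * α * u + 3 * t) := by
        field_simp
      rw [h10]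
      field_simp
      ring
    rw [e7]
    have := mul_le_mul_of_nonneg_right hg.le hu.le
    linarith
  calc (l + 1) * (X * Real.exp (-(s / (2 * (M : ℝ) + 1)))) * Real.exp (M * (Real.log C + t))
      ≤ Real.exp (Real.log 2 + β * u) * (X * Real.exp (-(s / (2 * (M : ℝ) + 1))))
          * Real.exp (M * (Real.log C + t)) := by gcongr
    _ = X * Real.exp (Real.log 2 + β * u + M * (Real.log C + t) - s / (2 * (M : ℝ) + 1)) := by
        have e8 : Real.exp (Real.log 2 + β * u + M * (Real.log C + t) - s / (2 * (M : ℝ) + 1))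
            = Real.exp (Real.log 2 + β * u) * Real.exp (-(s / (2 * (M : ℝ) + 1))) *
              Real.exp (M * (Real.log C + t)) := by
          rw [← Real.exp_add, ← Real.exp_add]
          congr 1
          ring
        rw [e8]
        ring
    _ ≤ X * Real.exp (-(γ * u)) := by
        gcongr
        linarith

end Pool.Agent.W4helper65.NP
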