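import Mathlib

set_option autoImplicit false

namespace Pool.Agent.W4helper65.NP

open Finset Filter Topology

noncomputable def Bl (y : ℕ) : Finset ℕ := (Finset.Ioc y (4 * y)).filter Nat.Prime

theorem theta_diff (y : ℕ) : Chebyshev.theta ((4 * y : ℕ) : ℝ) - Chebyshev.theta (y : ℝ)
    = ∑ p ∈ Bl y, Real.log p := by
  unfold Chebyshev.theta Bl
  rw [Nat.floor_natCast, Nat.floor_natCast]
  have h : (Finset.Ioc 0 (4 * y)).filter Nat.Prime
      = (Finset.Ioc 0 y).filter Nat.Prime ∪ (Finset.Ioc y (4 * y)).filter Nat.Prime := by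
    rw [← Finset.filter_union]
    congr 1
    rw [Finset.Ioc_union_Ioc_eq_Ioc (by omega) (by omega)]
  rw [h, Finset.sum_union]
  · ring
  · rw [Finset.disjoint_left]
    intro n h1 h2
    simp only [mem_filter, mem_Ioc] at h1 h2
    omega

theorem ev_block : ∀ᶠ y : ℕ in atTop, (y : ℝ) ≤ ∑ p ∈ Bl y, Real.log p := by
  have hlo := (isLittleO_log_rpow_atTop (show (0 : ℝ) < 1 / 2 by norm_num)).def
    (show (0 : ℝ) < 1 / 40 by norm_num)
  have t1 : Tendsto (fun y : ℕ => ((4 * y : ℕ) : ℝ)) atTop atTop :=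
    tendsto_natCast_atTop_atTop.comp (tendsto_id.const_mul_atTop' (by norm_num))
  have t2 : Tendsto (fun y : ℕ => ((4 * y : ℕ) : ℝ) + 1) atTop atTop :=
    tendsto_atTop_add_const_right _ _ t1
  have h1 := t1.eventually hlo
  have h2 := t2.eventually hlo
  filter_upwards [h1, h2, eventually_ge_atTop 1] with y h1 h2 hy
  rw [← theta_diff]
  have e1 := Chebyshev.theta_ge (4 * y)
  have e2 := Chebyshev.theta_le_log4_mul_x (x := (y : ℝ)) (Nat.cast_nonneg _)
  have hy' : (1 : ℝ) ≤ y := by exact_mod_cast hy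
  have hl4 : Real.log 4 = 2 * Real.log 2 := by
    rw [show (4 : ℝ) = 2 ^ 2 by norm_num, Real.log_pow]; norm_num
  have hl2 : (0.6931471803 : ℝ) < Real.log 2 := Real.log_two_gt_d9
  have n1 : Real.log ((4 * y : ℕ) : ℝ) ≤ 1 / 40 * √((4 * y : ℕ) : ℝ) := by
    have := (le_abs_self _).trans h1
    rw [Real.norm_eq_abs, abs_of_nonneg (by positivity), ← Real.sqrt_eq_rpow] at this
    exact this
  have n2 : Real.log (((4 * y : ℕ) : ℝ) + 1) ≤ 1 / 40 * √(((4 * y : ℕ) : ℝ) + 1) := by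
    have := (le_abs_self _).trans h2
    rw [Real.norm_eq_abs, abs_of_nonneg (by positivity), ← Real.sqrt_eq_rpow] at this
    exact this
  set s := √((4 * y : ℕ) : ℝ) with hs
  have hss : s * s = 4 * y := by
    rw [hs, Real.mul_self_sqrt (by positivity)]; push_cast; ring
  have hs0 : 0 ≤ s := Real.sqrt_nonneg _
  have n3 : √(((4 * y : ℕ) : ℝ) + 1) ≤ 5 * y := by
    rw [Real.sqrt_le_left (by positivity)]
    push_cast
    nlinarith
  have n4 : 2 * s * Real.log ((4 * y : ℕ) : ℝ) ≤ 2 * s * (1 / 40 * s) :=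
    mul_le_mul_of_nonneg_left n1 (by positivity)
  have e1' : (4 * (y : ℝ)) * Real.log 2 - Real.log (((4 * y : ℕ) : ℝ) + 1)
      - 2 * s * Real.log ((4 * y : ℕ) : ℝ) ≤ Chebyshev.theta ((4 * y : ℕ) : ℝ) := by
    refine le_trans (le_of_eq ?_) e1
    rw [hs]
    push_cast
    ring
  nlinarith

theorem block_all : ∃ c : ℝ, 0 < c ∧ ∀ y : ℕ, 1 ≤ y → c * y ≤ ∑ p ∈ Bl y, Real.log p := by
  obtain ⟨Y, hY⟩ := eventually_atTop.1 ev_block
  have hl2 : 0 < Real.log 2 := Real.log_pos (by norm_num)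
  refine ⟨min 1 (Real.log 2 / (Y + 1)), by positivity, ?_⟩
  intro y hy
  by_cases h : Y ≤ y
  · have := hY y h
    have h2 : min 1 (Real.log 2 / (Y + 1)) * (y : ℝ) ≤ 1 * y :=
      mul_le_mul_of_nonneg_right (min_le_left _ _) (Nat.cast_nonneg _)
    linarith
  · push Not at h
    obtain ⟨p, hp, hp1, hp2⟩ := Nat.exists_prime_lt_and_le_two_mul y (by omega)
    have hmem : p ∈ Bl y := by
      unfold Bl
      rw [mem_filter, mem_Ioc]
      exact ⟨⟨hp1, by omega⟩, hp⟩
    have h1 : Real.log p ≤ ∑ p ∈ Bl y, Real.log p :=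
      Finset.single_le_sum (f := fun p : ℕ => Real.log p)
        (fun q _ => Real.log_natCast_nonneg q) hmem
    have h2 : Real.log 2 ≤ Real.log p :=
      Real.log_le_log (by norm_num) (by exact_mod_cast hp.two_le)
    have hy1 : (y : ℝ) ≤ Y + 1 := by
      have : (y : ℝ) ≤ Y := by exact_mod_cast h.le
      linarith
    have h3 : min 1 (Real.log 2 / (Y + 1)) * (y : ℝ) ≤ Real.log 2 / (Y + 1) * (Y + 1) := by
      refine mul_le_mul (min_le_right _ _) hy1 (Nat.cast_nonneg _) (by positivity)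
    rw [div_mul_cancel₀ _ (by positivity)] at h3
    linarith

/-- `∑_{y<p≤4y} 1/p ≥ c / log (4y)` for every `y ≥ 1`. -/
theorem block_inv : ∃ c : ℝ, 0 < c ∧ ∀ y : ℕ, 1 ≤ y →
    c / Real.log (4 * y) ≤ ∑ p ∈ Bl y, 1 / (p : ℝ) := by
  obtain ⟨c, hc, h⟩ := block_all
  refine ⟨c / 4, by positivity, ?_⟩
  intro y hy
  have hy' : (1 : ℝ) ≤ y := by exact_mod_cast hy
  have hlog : 0 < Real.log (4 * y) := Real.log_pos (by linarith)
  have h1 : ∀ p ∈ Bl y, Real.log p / (4 * y * Real.log (4 * y)) ≤ 1 / (p : ℝ) := by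
    intro p hp
    unfold Bl at hp
    rw [mem_filter, mem_Ioc] at hp
    have hp0 : (0 : ℝ) < p := by exact_mod_cast hp.2.pos
    have hp4 : (p : ℝ) ≤ 4 * y := by exact_mod_cast hp.1.2
    have hlp : Real.log p ≤ Real.log (4 * y) := Real.log_le_log hp0 hp4
    have hlp0 : 0 ≤ Real.log p := Real.log_natCast_nonneg p
    rw [div_le_div_iff₀ (by positivity) hp0, one_mul]
    calc Real.log p * p ≤ Real.log (4 * y) * (4 * y) :=
          mul_le_mul hlp hp4 hp0.le hlog.le
      _ = 4 * y * Real.log (4 * y) := by ring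
  have h2 := Finset.sum_le_sum h1
  rw [← Finset.sum_div] at h2
  refine le_trans ?_ h2
  rw [div_le_div_iff₀ hlog (by positivity)]
  have h3 := h y hy
  calc c / 4 * (4 * y * Real.log (4 * y)) = (c * y) * Real.log (4 * y) := by ring
    _ ≤ _ := mul_le_mul_of_nonneg_right h3 hlog.le

end Pool.Agent.W4helper65.NP
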