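import Pool.Agent.W4helper65.NP.SM

set_option autoImplicit false

namespace Pool.Agent.W4helper65.NP

open Finset N129f076f

/-- If `n ≥ 1`, `l ≤ k`, and `M` distinct primes above `k` divide `n + k`, then `v_l(n) ≥ M`. -/
theorem le_vl {M : ℕ} (l n k : ℕ) (hn : 0 < n) (hk : l ≤ k) (f : Fin M → ℕ)
    (hp : ∀ i, (f i).Prime) (hinj : Function.Injective f) (hgt : ∀ i, k < f i)
    (hd : ∀ i, f i ∣ n + k) : (M : ℕ∞) ≤ v_l l n := by
  classical
  have h1 : M ≤ v n k := by
    unfold v
    have : (Finset.univ.image f).card = M := by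
      rw [Finset.card_image_of_injective _ hinj]
      simp
    rw [← this]
    apply Finset.card_le_card
    intro p hpm
    obtain ⟨i, _, rfl⟩ := Finset.mem_image.1 hpm
    rw [Finset.mem_filter]
    refine ⟨Nat.mem_primeFactors.2 ⟨hp i, hd i, by omega⟩, ?_⟩
    intro j hj hdj
    rw [Finset.mem_range] at hj
    have h2 : f i ∣ (n + k) - (n + j) := Nat.dvd_sub (hd i) hdj
    have h3 : (n + k) - (n + j) = k - j := by omega
    rw [h3] at h2
    have h4 := Nat.le_of_dvd (by omega) h2
    have := hgt i
    omega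
  calc (M : ℕ∞) ≤ (v n k : ℕ∞) := by exact_mod_cast h1
    _ ≤ v_l l n := by
      unfold v_l
      exact le_iSup₂_of_le k hk le_rfl

/-- the set of `n ≤ X` with `v_l(n) < M` -/
noncomputable def Exc (l M X : ℕ) : Finset ℕ := by
  classical exact (Finset.Ioc 0 X).filter (fun n => v_l l n < (M : ℕ∞))

noncomputable def FF (p q : ℕ) : ℝ := (if p = q then 1 / (p : ℝ) else 0) + 1 / ((p : ℝ) * q)

theorem main_sm {M : ℕ} (l K X : ℕ) (hK : 0 < K) (B : Fin M → Finset ℕ)
    (hB : ∀ i, ∀ p ∈ B i, p.Prime ∧ l + K ≤ p)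
    (hdis : ∀ i j, i ≠ j → Disjoint (B i) (B j)) :
    ((Exc l M X).card : ℝ) * (K * ∏ i, ∑ p ∈ B i, 1 / (p : ℝ)) ^ 2
      ≤ ((K : ℝ) * ∏ i, ((B i).card : ℝ)) ^ 2
        + 2 * (K * ∏ i, ∑ p ∈ B i, 1 / (p : ℝ)) * ((K : ℝ) * ∏ i, ((B i).card : ℝ))
        + X * (K * ∏ i, ((∑ p ∈ B i, 1 / (p : ℝ)) + (∑ p ∈ B i, 1 / (p : ℝ)) ^ 2)) := by
  classical
  set I : Finset (ℕ × (Fin M → ℕ)) := Finset.range K ×ˢ Fintype.piFinset B with hI
  set w : ℕ × (Fin M → ℕ) → ℝ := fun a => ∏ i, (1 / (a.2 i : ℝ)) with hw
  set d : ℕ × (Fin M → ℕ) → ℕ × (Fin M → ℕ) → ℝ :=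
    fun a b => if a.1 = b.1 then ∏ i, FF (a.2 i) (b.2 i) else 0 with hd
  set ind : ℕ × (Fin M → ℕ) → ℕ → ℝ :=
    fun a n => if (∏ i, a.2 i) ∣ n + (l + a.1) then 1 else 0 with hind
  have hmem : ∀ a ∈ I, a.1 < K ∧ ∀ i, a.2 i ∈ B i := by
    intro a ha
    rw [hI, Finset.mem_product, Finset.mem_range, Fintype.mem_piFinset] at ha
    exact ha
  have hpr : ∀ a ∈ I, ∀ i, (a.2 i).Prime := fun a ha i => (hB i _ ((hmem a ha).2 i)).1
  have hge : ∀ a ∈ I, ∀ i, l + K ≤ a.2 i := fun a ha i => (hB i _ ((hmem a ha).2 i)).2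
  have hne : ∀ a ∈ I, ∀ b ∈ I, ∀ i j, i ≠ j → a.2 i ≠ b.2 j := by
    intro a ha b hb i j hij h
    have := Finset.disjoint_left.1 (hdis i j hij) ((hmem a ha).2 i)
    rw [h] at this
    exact this ((hmem b hb).2 j)
  have hpos : ∀ a ∈ I, 0 < ∏ i, a.2 i := fun a ha =>
    Finset.prod_pos (fun i _ => (hpr a ha i).pos)
  have hcw : ∀ a : ℕ × (Fin M → ℕ), (X : ℝ) / ((∏ i, a.2 i : ℕ) : ℝ) = X * w a := by
    intro a
    rw [hw]
    push_cast
    simp only [one_div, Finset.prod_inv_distrib]
    rw [div_eq_mul_inv]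
  have hFnn : ∀ p q : ℕ, 0 ≤ FF p q := by
    intro p q
    unfold FF
    split_ifs <;> positivity
  have hsum_w : ∑ a ∈ I, w a = K * ∏ i, ∑ p ∈ B i, 1 / (p : ℝ) := by
    rw [hI, Finset.sum_product]
    simp only [hw]
    rw [Finset.sum_const, Finset.card_range, nsmul_eq_mul, Finset.prod_univ_sum]
  have hcard : (I.card : ℝ) = (K : ℝ) * ∏ i, ((B i).card : ℝ) := by
    rw [hI, Finset.card_product, Finset.card_range, Fintype.card_piFinset]
    push_cast
    rfl
  have hsum_d : ∑ a ∈ I, ∑ b ∈ I, d a b
      ≤ K * ∏ i, ((∑ p ∈ B i, 1 / (p : ℝ)) + (∑ p ∈ B i, 1 / (p : ℝ)) ^ 2) := by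
    have e1 : ∀ k ∈ Finset.range K, ∀ f : Fin M → ℕ,
        ∑ b ∈ I, d (k, f) b = ∏ i, ∑ q ∈ B i, FF (f i) q := by
      intro k hk f
      rw [hI, Finset.sum_product, Finset.sum_eq_single k]
      · simp only [hd, if_true]
        rw [Finset.prod_univ_sum]
      · intro k' _ hkk
        simp only [hd]
        rw [Finset.sum_eq_zero]
        intro g _
        rw [if_neg (Ne.symm hkk)]
      · intro h; exact absurd hk h
    rw [hI, Finset.sum_product]
    rw [← hI]
    calc ∑ k ∈ Finset.range K, ∑ f ∈ Fintype.piFinset B, ∑ b ∈ I, d (k, f) b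
        = ∑ k ∈ Finset.range K, ∑ f ∈ Fintype.piFinset B, ∏ i, ∑ q ∈ B i, FF (f i) q := by
          refine Finset.sum_congr rfl fun k hk => Finset.sum_congr rfl fun f _ => e1 k hk f
      _ = K * ∏ i, ∑ p ∈ B i, ∑ q ∈ B i, FF p q := by
          rw [Finset.sum_const, Finset.card_range, nsmul_eq_mul, Finset.prod_univ_sum]
      _ ≤ _ := by
          refine mul_le_mul_of_nonneg_left ?_ (Nat.cast_nonneg _)
          refine Finset.prod_le_prod (fun i _ => Finset.sum_nonneg fun p _ =>
            Finset.sum_nonneg fun q _ => hFnn p q) ?_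
          intro i _
          have e2 : ∀ p ∈ B i, ∑ q ∈ B i, FF p q = 1 / (p : ℝ) + 1 / (p : ℝ) * ∑ q ∈ B i, 1 / (q : ℝ) := by
            intro p hp
            unfold FF
            rw [Finset.sum_add_distrib, Finset.sum_ite_eq, if_pos hp, Finset.mul_sum]
            congr 1
            refine Finset.sum_congr rfl fun q _ => ?_
            rw [one_div_mul_one_div]
          rw [Finset.sum_congr rfl e2, Finset.sum_add_distrib, ← Finset.sum_mul, sq]
  have hmain := second_moment I (Finset.Ioc 0 X) (Exc l M X) (by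
      unfold Exc; exact Finset.filter_subset _ _) (X : ℝ) (by simp) ind w d ?_ ?_ ?_ ?_
  · rw [hsum_w, hcard] at hmain
    refine hmain.trans ?_
    have hX0 : (0 : ℝ) ≤ X := Nat.cast_nonneg _
    have := mul_le_mul_of_nonneg_left hsum_d hX0
    linarith
  · -- exceptional
    intro n hn a ha
    simp only [hind]
    rw [if_neg]
    intro hdv
    unfold Exc at hn
    rw [Finset.mem_filter, Finset.mem_Ioc] at hn
    refine absurd hn.2 (not_lt.2 ?_)
    refine le_vl l n (l + a.1) hn.1.1 (by omega) a.2 (hpr a ha) ?_ ?_ ?_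
    · intro i j hij
      by_contra hne'
      exact hne a ha a ha i j hne' hij
    · intro i
      have := hge a ha i
      have := (hmem a ha).1
      omega
    · intro i
      exact (Finset.dvd_prod_of_mem _ (Finset.mem_univ i)).trans hdv
  · -- h1
    intro a ha
    rw [← hcw a]
    have h := le_cnt X (∏ i, a.2 i) (l + a.1) (hpos a ha)
    refine h.trans (le_of_eq ?_)
    simp only [hind]
    rw [Finset.sum_boole]
  · -- h2
    intro a ha b hb
    have hprod : ∀ n, ind a n * ind b n
        = if ((∏ i, a.2 i) ∣ n + (l + a.1) ∧ (∏ i, b.2 i) ∣ n + (l + b.1)) then (1 : ℝ) else 0 := by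
      intro n
      simp only [hind]
      by_cases h1 : (∏ i, a.2 i) ∣ n + (l + a.1) <;> by_cases h2 : (∏ i, b.2 i) ∣ n + (l + b.1) <;>
        simp [h1, h2]
    simp_rw [hprod]
    rw [Finset.sum_boole]
    have hwa : 0 ≤ w a := Finset.prod_nonneg fun i _ => by positivity
    have hwb : 0 ≤ w b := Finset.prod_nonneg fun i _ => by positivity
    have hX0 : (0 : ℝ) ≤ X := Nat.cast_nonneg _
    by_cases hab : a.1 = b.1
    · -- same shift
      have hdab : d a b = ∏ i, FF (a.2 i) (b.2 i) := by simp only [hd]; rw [if_pos hab]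
      rw [hdab]
      set h : Fin M → ℕ := fun i => if a.2 i = b.2 i then a.2 i else a.2 i * b.2 i with hh
      have hhpos : ∀ i, 0 < h i := by
        intro i
        simp only [hh]
        have := (hpr a ha i).pos
        have := (hpr b hb i).pos
        split_ifs <;> positivity
      have hDpos : 0 < ∏ i, h i := Finset.prod_pos fun i _ => hhpos i
      have hsub : ((Finset.Ioc 0 X).filter fun n => (∏ i, a.2 i) ∣ n + (l + a.1) ∧
          (∏ i, b.2 i) ∣ n + (l + b.1)) ⊆
          (Finset.Ioc 0 X).filter (fun n => (∏ i, h i) ∣ n + (l + a.1)) := by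
        intro n hn
        rw [Finset.mem_filter] at hn ⊢
        refine ⟨hn.1, ?_⟩
        have hda : ∀ i, a.2 i ∣ n + (l + a.1) := fun i =>
          (Finset.dvd_prod_of_mem _ (Finset.mem_univ i)).trans hn.2.1
        have hdb : ∀ i, b.2 i ∣ n + (l + a.1) := fun i => by
          rw [hab]
          exact (Finset.dvd_prod_of_mem _ (Finset.mem_univ i)).trans hn.2.2
        refine Finset.prod_dvd_of_isRelPrime ?_ ?_
        · intro i _ j _ hij
          have c1 : Nat.Coprime (a.2 i) (a.2 j) :=
            (Nat.coprime_primes (hpr a ha i) (hpr a ha j)).2 (hne a ha a ha i j hij)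
          have c2 : Nat.Coprime (a.2 i) (b.2 j) :=
            (Nat.coprime_primes (hpr a ha i) (hpr b hb j)).2 (hne a ha b hb i j hij)
          have c3 : Nat.Coprime (b.2 i) (a.2 j) :=
            (Nat.coprime_primes (hpr b hb i) (hpr a ha j)).2 (hne b hb a ha i j hij)
          have c4 : Nat.Coprime (b.2 i) (b.2 j) :=
            (Nat.coprime_primes (hpr b hb i) (hpr b hb j)).2 (hne b hb b hb i j hij)
          show IsRelPrime (h i) (h j)
          rw [← Nat.coprime_iff_isRelPrime]
          simp only [hh]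
          split_ifs
          · exact c1
          · exact Nat.Coprime.mul_right c1 c2
          · exact Nat.Coprime.mul_left c1 c3
          · exact Nat.Coprime.mul_left (Nat.Coprime.mul_right c1 c2) (Nat.Coprime.mul_right c3 c4)
        · intro i _
          simp only [hh]
          split_ifs with he
          · exact hda i
          · exact Nat.Coprime.mul_dvd_of_dvd_of_dvd
              ((Nat.coprime_primes (hpr a ha i) (hpr b hb i)).2 he) (hda i) (hdb i)
      have hc : (((Finset.Ioc 0 X).filter fun n => (∏ i, a.2 i) ∣ n + (l + a.1) ∧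
          (∏ i, b.2 i) ∣ n + (l + b.1)).card : ℝ) ≤ X / ((∏ i, h i : ℕ) : ℝ) + 1 :=
        (by exact_mod_cast Finset.card_le_card hsub : _ ≤
          (((Finset.Ioc 0 X).filter (fun n => (∏ i, h i) ∣ n + (l + a.1))).card : ℝ)).trans
          (cnt_le X _ _ hDpos)
      have hle : (X : ℝ) / ((∏ i, h i : ℕ) : ℝ) ≤ X * ∏ i, FF (a.2 i) (b.2 i) := by
        rw [div_eq_mul_inv]
        refine mul_le_mul_of_nonneg_left ?_ hX0
        push_cast
        rw [← Finset.prod_inv_distrib]
        refine Finset.prod_le_prod (fun i _ => by positivity) ?_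
        intro i _
        simp only [hh]
        unfold FF
        split_ifs with he
        · rw [one_div]
          have : (0 : ℝ) ≤ 1 / ((a.2 i : ℝ) * (b.2 i : ℝ)) := by positivity
          linarith
        · push_cast
          rw [one_div]
          linarith
      have : 0 ≤ (X : ℝ) * (w a * w b) := by positivity
      linarith
    · have hdab : d a b = 0 := by simp only [hd]; rw [if_neg hab]
      rw [hdab, mul_zero, add_zero]
      by_cases hex : ∃ i, a.2 i = b.2 i
      · obtain ⟨i, hi⟩ := hex
        have hemp : ((Finset.Ioc 0 X).filter fun n => (∏ i, a.2 i) ∣ n + (l + a.1) ∧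
          (∏ i, b.2 i) ∣ n + (l + b.1)) = ∅ := by
          rw [Finset.filter_eq_empty_iff]
          intro n _ hn
          have hda : a.2 i ∣ n + (l + a.1) :=
            (Finset.dvd_prod_of_mem _ (Finset.mem_univ i)).trans hn.1
          have hdb : a.2 i ∣ n + (l + b.1) := by
            rw [hi]
            exact (Finset.dvd_prod_of_mem _ (Finset.mem_univ i)).trans hn.2
          have h1 := (hmem a ha).1
          have h2 := (hmem b hb).1
          have h3 := hge a ha i
          rcases lt_or_gt_of_ne hab with hlt | hlt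
          · have h4 := Nat.dvd_sub hdb hda
            have h5 : n + (l + b.1) - (n + (l + a.1)) = b.1 - a.1 := by omega
            rw [h5] at h4
            have := Nat.le_of_dvd (by omega) h4
            omega
          · have h4 := Nat.dvd_sub hda hdb
            have h5 : n + (l + a.1) - (n + (l + b.1)) = a.1 - b.1 := by omega
            rw [h5] at h4
            have := Nat.le_of_dvd (by omega) h4
            omega
        rw [hemp]
        simp only [Finset.card_empty, Nat.cast_zero]
        positivity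
      · push Not at hex
        have hcop : Nat.Coprime (∏ i, a.2 i) (∏ i, b.2 i) := by
          refine Nat.Coprime.prod_left fun i _ => Nat.Coprime.prod_right fun j _ => ?_
          refine (Nat.coprime_primes (hpr a ha i) (hpr b hb j)).2 ?_
          by_cases hij : i = j
          · subst hij; exact hex i
          · exact hne a ha b hb i j hij
        have hcl := class_le X ((∏ i, a.2 i) * ∏ i, b.2 i) (Nat.mul_pos (hpos a ha) (hpos b hb))
          ((Finset.Ioc 0 X).filter fun n => (∏ i, a.2 i) ∣ n + (l + a.1) ∧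
          (∏ i, b.2 i) ∣ n + (l + b.1)) (Finset.filter_subset _ _) (by
            intro x hx y hy
            rw [Finset.mem_filter] at hx hy
            push_cast
            have hcop' : IsCoprime ((∏ i, a.2 i : ℕ) : ℤ) ((∏ i, b.2 i : ℕ) : ℤ) :=
              Nat.isCoprime_iff_coprime.2 hcop
            push_cast at hcop'
            refine hcop'.mul_dvd ?_ ?_
            · have e1 : ((∏ i, a.2 i : ℕ) : ℤ) ∣ ((x + (l + a.1) : ℕ) : ℤ) := by
                exact_mod_cast hx.2.1
              have e2 : ((∏ i, a.2 i : ℕ) : ℤ) ∣ ((y + (l + a.1) : ℕ) : ℤ) := by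
                exact_mod_cast hy.2.1
              have e3 := dvd_sub e1 e2
              push_cast at e3
              have e4 : (x : ℤ) - y = (x : ℤ) + (l + a.1) - (y + (l + a.1)) := by ring
              rw [e4]; exact e3
            · have e1 : ((∏ i, b.2 i : ℕ) : ℤ) ∣ ((x + (l + b.1) : ℕ) : ℤ) := by
                exact_mod_cast hx.2.2
              have e2 : ((∏ i, b.2 i : ℕ) : ℤ) ∣ ((y + (l + b.1) : ℕ) : ℤ) := by
                exact_mod_cast hy.2.2
              have e3 := dvd_sub e1 e2
              push_cast at e3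
              have e4 : (x : ℤ) - y = (x : ℤ) + (l + b.1) - (y + (l + b.1)) := by ring
              rw [e4]; exact e3)
        refine hcl.trans (le_of_eq ?_)
        rw [Nat.cast_mul]
        have e5 := hcw a
        have e6 : ((∏ i, b.2 i : ℕ) : ℝ)⁻¹ = w b := by
          rw [hw]; push_cast; simp only [one_div, Finset.prod_inv_distrib]
        rw [← div_div, e5, div_eq_mul_inv, e6]
        ring
  · intro a _
    exact Finset.prod_nonneg fun i _ => by positivity

end Pool.Agent.W4helper65.NP
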