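import Mathlib
import Pool.Prelude.Def_F_09379136

set_option autoImplicit false

namespace Pool.Agent.W4helper65.NP

open Finset N129f076f

theorem cnt_eq (X m k : ℕ) :
    ((Finset.Ioc 0 X).filter (fun n => m ∣ n + k)).card + k / m = (X + k) / m := by
  rw [← Nat.Ioc_filter_dvd_card_eq_div, ← Nat.Ioc_filter_dvd_card_eq_div (X + k)]
  have h1 : ((Finset.Ioc 0 X).filter (fun n => m ∣ n + k)).card
      = ((Finset.Ioc k (X + k)).filter (fun n => m ∣ n)).card := by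
    apply Finset.card_bij (fun n _ => n + k)
    · intro n hn
      simp only [mem_filter, mem_Ioc] at hn ⊢
      exact ⟨⟨by omega, by omega⟩, hn.2⟩
    · intro a _ b _ h
      simpa using h
    · intro b hb
      simp only [mem_filter, mem_Ioc] at hb
      refine ⟨b - k, ?_, by omega⟩
      simp only [mem_filter, mem_Ioc]
      refine ⟨⟨by omega, by omega⟩, ?_⟩
      rw [Nat.sub_add_cancel (by omega)]
      exact hb.2
  rw [h1, ← Finset.card_union_of_disjoint]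
  · congr 1
    ext n
    simp only [mem_union, mem_filter, mem_Ioc]
    constructor
    · rintro (⟨⟨a, b⟩, c⟩ | ⟨⟨a, b⟩, c⟩)
      · exact ⟨⟨by omega, b⟩, c⟩
      · exact ⟨⟨a, by omega⟩, c⟩
    · rintro ⟨⟨a, b⟩, c⟩
      by_cases h : n ≤ k
      · exact Or.inr ⟨⟨a, h⟩, c⟩
      · exact Or.inl ⟨⟨by omega, b⟩, c⟩
  · rw [Finset.disjoint_left]
    intro n h1 h2
    simp only [mem_filter, mem_Ioc] at h1 h2
    omega

theorem cnt_le (X m k : ℕ) (hm : 0 < m) :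
    (((Finset.Ioc 0 X).filter (fun n => m ∣ n + k)).card : ℝ) ≤ X / m + 1 := by
  have h := cnt_eq X m k
  have h' : (((Finset.Ioc 0 X).filter (fun n => m ∣ n + k)).card : ℝ) + ((k / m : ℕ) : ℝ)
      = (((X + k) / m : ℕ) : ℝ) := by exact_mod_cast h
  have hm' : (0 : ℝ) < m := by exact_mod_cast hm
  have h1 : (((X + k) / m : ℕ) : ℝ) ≤ ((X + k : ℕ) : ℝ) / m := Nat.cast_div_le
  have h2 : (k : ℝ) / m < ((k / m : ℕ) : ℝ) + 1 := by
    rw [div_lt_iff₀ hm']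
    have := Nat.lt_div_mul_add (a := k) hm
    have h3 : k < (k / m + 1) * m := by nlinarith
    exact_mod_cast h3
  have h4 : ((X + k : ℕ) : ℝ) / m = X / m + k / m := by push_cast; ring
  linarith

theorem le_cnt (X m k : ℕ) (hm : 0 < m) :
    (X : ℝ) / m - 1 ≤ (((Finset.Ioc 0 X).filter (fun n => m ∣ n + k)).card : ℝ) := by
  have h := cnt_eq X m k
  have h' : (((Finset.Ioc 0 X).filter (fun n => m ∣ n + k)).card : ℝ) + ((k / m : ℕ) : ℝ)
      = (((X + k) / m : ℕ) : ℝ) := by exact_mod_cast h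
  have hm' : (0 : ℝ) < m := by exact_mod_cast hm
  have h1 : ((k / m : ℕ) : ℝ) ≤ (k : ℝ) / m := Nat.cast_div_le
  have h2 : ((X + k : ℕ) : ℝ) / m < (((X + k) / m : ℕ) : ℝ) + 1 := by
    rw [div_lt_iff₀ hm']
    have := Nat.lt_div_mul_add (a := X + k) hm
    have h3 : X + k < ((X + k) / m + 1) * m := by nlinarith
    exact_mod_cast h3
  have h4 : ((X + k : ℕ) : ℝ) / m = X / m + k / m := by push_cast; ring
  linarith

/-- A subset of `(0, X]` all of whose differences are multiples of `m` has at most `X/m+1` elements. -/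
theorem class_le (X m : ℕ) (hm : 0 < m) (S : Finset ℕ) (hS : S ⊆ Finset.Ioc 0 X)
    (hd : ∀ a ∈ S, ∀ b ∈ S, (m : ℤ) ∣ (a : ℤ) - b) : (S.card : ℝ) ≤ X / m + 1 := by
  rcases S.eq_empty_or_nonempty with h0 | ⟨n0, hn0⟩
  · subst h0
    simp only [card_empty, Nat.cast_zero]
    positivity
  · have hsub : S ⊆ (Finset.Ioc 0 X).filter (fun n => m ∣ n + (m - 1) * n0) := by
      intro n hn
      rw [mem_filter]
      refine ⟨hS hn, ?_⟩
      have h1 := hd n hn n0 hn0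
      have h2 : ((n + (m - 1) * n0 : ℕ) : ℤ) = ((n : ℤ) - n0) + m * n0 := by
        push_cast [Nat.cast_sub (show 1 ≤ m by omega)]
        ring
      have h3 : (m : ℤ) ∣ ((n + (m - 1) * n0 : ℕ) : ℤ) := by
        rw [h2]
        exact dvd_add h1 (dvd_mul_right _ _)
      exact_mod_cast h3
    calc (S.card : ℝ) ≤ (((Finset.Ioc 0 X).filter (fun n => m ∣ n + (m - 1) * n0)).card : ℝ) := by
          exact_mod_cast Finset.card_le_card hsub
      _ ≤ X / m + 1 := cnt_le X m _ hm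

theorem second_moment {ι : Type*} (I : Finset ι) (S E : Finset ℕ) (hE : E ⊆ S) (X : ℝ)
    (hX : (S.card : ℝ) ≤ X) (ind : ι → ℕ → ℝ) (w : ι → ℝ) (d : ι → ι → ℝ)
    (hEz : ∀ n ∈ E, ∀ a ∈ I, ind a n = 0)
    (h1 : ∀ a ∈ I, X * w a - 1 ≤ ∑ n ∈ S, ind a n)
    (h2 : ∀ a ∈ I, ∀ b ∈ I, ∑ n ∈ S, ind a n * ind b n ≤ X * (w a * w b) + 1 + X * d a b)
    (hw : ∀ a ∈ I, 0 ≤ w a) :
    (E.card : ℝ) * (∑ a ∈ I, w a) ^ 2 ≤ (I.card : ℝ) ^ 2 + 2 * (∑ a ∈ I, w a) * I.card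
      + X * ∑ a ∈ I, ∑ b ∈ I, d a b := by
  set μ := ∑ a ∈ I, w a with hμ
  have hμ0 : 0 ≤ μ := Finset.sum_nonneg hw
  set N : ℕ → ℝ := fun n => ∑ a ∈ I, ind a n with hN
  have e1 : (E.card : ℝ) * μ ^ 2 = ∑ n ∈ E, (N n - μ) ^ 2 := by
    rw [Finset.sum_congr rfl (g := fun _ => μ ^ 2)]
    · rw [Finset.sum_const, nsmul_eq_mul]
    · intro n hn
      have : N n = 0 := Finset.sum_eq_zero (fun a ha => hEz n hn a ha)
      rw [this]; ring
  have e2 : ∑ n ∈ E, (N n - μ) ^ 2 ≤ ∑ n ∈ S, (N n - μ) ^ 2 :=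
    Finset.sum_le_sum_of_subset_of_nonneg hE (fun n _ _ => sq_nonneg _)
  have e3 : ∑ n ∈ S, (N n - μ) ^ 2 = ∑ n ∈ S, N n ^ 2 - 2 * μ * ∑ n ∈ S, N n + S.card * μ ^ 2 := by
    rw [Finset.mul_sum, ← Finset.sum_sub_distrib]
    rw [show (S.card : ℝ) * μ ^ 2 = ∑ n ∈ S, μ ^ 2 by rw [Finset.sum_const, nsmul_eq_mul]]
    rw [← Finset.sum_add_distrib]
    apply Finset.sum_congr rfl
    intro n _
    ring
  have e4 : X * μ - I.card ≤ ∑ n ∈ S, N n := by
    rw [hN]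
    rw [Finset.sum_comm]
    calc X * μ - I.card = ∑ a ∈ I, (X * w a - 1) := by
          rw [Finset.sum_sub_distrib, ← Finset.mul_sum, Finset.sum_const, nsmul_eq_mul, mul_one]
      _ ≤ _ := Finset.sum_le_sum h1
  have e5 : ∑ n ∈ S, N n ^ 2 ≤ X * μ ^ 2 + (I.card : ℝ) ^ 2 + X * ∑ a ∈ I, ∑ b ∈ I, d a b := by
    have : ∑ n ∈ S, N n ^ 2 = ∑ a ∈ I, ∑ b ∈ I, ∑ n ∈ S, ind a n * ind b n := by
      have : ∀ n, N n ^ 2 = ∑ a ∈ I, ∑ b ∈ I, ind a n * ind b n := by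
        intro n
        rw [sq, hN, Finset.sum_mul_sum]
      simp_rw [this]
      rw [Finset.sum_comm]
      apply Finset.sum_congr rfl
      intro a _
      rw [Finset.sum_comm]
    rw [this]
    calc ∑ a ∈ I, ∑ b ∈ I, ∑ n ∈ S, ind a n * ind b n
        ≤ ∑ a ∈ I, ∑ b ∈ I, (X * (w a * w b) + 1 + X * d a b) :=
          Finset.sum_le_sum (fun a ha => Finset.sum_le_sum (fun b hb => h2 a ha b hb))
      _ = X * μ ^ 2 + (I.card : ℝ) ^ 2 + X * ∑ a ∈ I, ∑ b ∈ I, d a b := by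
          simp_rw [Finset.sum_add_distrib, ← Finset.mul_sum]
          rw [← Finset.sum_mul, ← hμ]
          simp only [Finset.sum_const, nsmul_eq_mul, mul_one]
          ring
  have e6 : (S.card : ℝ) * μ ^ 2 ≤ X * μ ^ 2 := mul_le_mul_of_nonneg_right hX (sq_nonneg _)
  have e7 : 2 * μ * (X * μ - I.card) ≤ 2 * μ * ∑ n ∈ S, N n :=
    mul_le_mul_of_nonneg_left e4 (by positivity)
  nlinarith

end Pool.Agent.W4helper65.NP
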