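import Pool.Agent.W4helper65.NP.Conc
import Pool.Agent.W4helper65.NP.Cheb

set_option autoImplicit false

namespace Pool.Agent.W4helper65.NP

open Finset N129f076f

theorem sm_bound {M : ℕ} (l K X : ℕ) (hK : 0 < K) (B : Fin M → Finset ℕ)
    (hB : ∀ i, ∀ p ∈ B i, p.Prime ∧ l + K ≤ p)
    (hdis : ∀ i j, i ≠ j → Disjoint (B i) (B j)) (R T : ℝ) (hR : 1 ≤ R)
    (hZ : ∀ i, ∀ p ∈ B i, (p : ℝ) ≤ R)
    (hL : ∀ i, 0 < ∑ p ∈ B i, 1 / (p : ℝ))
    (hT : ∀ i, 1 / (∑ p ∈ B i, 1 / (p : ℝ)) ≤ T) :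
    ((Exc l M X).card : ℝ) ≤ 3 * R ^ (2 * M) + X / K * (1 + T) ^ M := by
  have h := main_sm l K X hK B hB hdis
  set L : Fin M → ℝ := fun i => ∑ p ∈ B i, 1 / (p : ℝ) with hLd
  have hK' : (0 : ℝ) < K := by exact_mod_cast hK
  set μ : ℝ := K * ∏ i, L i with hμ
  have hP : 0 < ∏ i, L i := Finset.prod_pos fun i _ => hL i
  have hμ0 : 0 < μ := by positivity
  have hcard : (K : ℝ) * ∏ i, ((B i).card : ℝ) ≤ μ * R ^ M := by
    have h1 : ∏ i, ((B i).card : ℝ) ≤ ∏ i : Fin M, (L i * R) := by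
      refine Finset.prod_le_prod (fun i _ => Nat.cast_nonneg _) fun i _ => ?_
      rw [hLd]
      simp only
      rw [Finset.sum_mul, ← nsmul_one, ← Finset.sum_const]
      refine Finset.sum_le_sum fun p hp => ?_
      have hp0 : (0 : ℝ) < p := by exact_mod_cast (hB i p hp).1.pos
      rw [one_div_mul_eq_div, le_div_iff₀ hp0, one_mul]
      exact hZ i p hp
    rw [Finset.prod_mul_distrib, Finset.prod_const, Finset.card_univ, Fintype.card_fin] at h1
    calc (K : ℝ) * ∏ i, ((B i).card : ℝ) ≤ K * ((∏ i, L i) * R ^ M) :=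
          mul_le_mul_of_nonneg_left h1 hK'.le
      _ = μ * R ^ M := by rw [hμ]; ring
  have hc0 : 0 ≤ (K : ℝ) * ∏ i, ((B i).card : ℝ) :=
    mul_nonneg hK'.le (Finset.prod_nonneg fun i _ => Nat.cast_nonneg _)
  have hRM : 1 ≤ R ^ M := one_le_pow₀ hR
  have hlast : (X : ℝ) * (K * ∏ i, (L i + L i ^ 2)) ≤ X / K * (1 + T) ^ M * μ ^ 2 := by
    have h1 : ∏ i, (L i + L i ^ 2) ≤ ∏ i : Fin M, (L i ^ 2 * (1 + T)) := by
      refine Finset.prod_le_prod (fun i _ => by have := hL i; positivity) fun i _ => ?_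
      have h2 := hT i
      have h3 := hL i
      rw [div_le_iff₀ h3] at h2
      change 1 ≤ T * L i at h2
      have h4 : L i ≤ L i ^ 2 * T := by nlinarith [show 0 < L i from h3]
      nlinarith
    rw [Finset.prod_mul_distrib, Finset.prod_const, Finset.card_univ, Fintype.card_fin,
      Finset.prod_pow] at h1
    calc (X : ℝ) * (K * ∏ i, (L i + L i ^ 2)) ≤ X * (K * ((∏ i, L i) ^ 2 * (1 + T) ^ M)) := by
          gcongr
      _ = X / K * (1 + T) ^ M * μ ^ 2 := by
          rw [hμ]; field_simp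
  have e1 : ((K : ℝ) * ∏ i, ((B i).card : ℝ)) ^ 2 ≤ (μ * R ^ M) ^ 2 := by gcongr
  have e2 : 2 * μ * ((K : ℝ) * ∏ i, ((B i).card : ℝ)) ≤ 2 * μ * (μ * R ^ M) := by gcongr
  have e3 : 2 * μ * (μ * R ^ M) ≤ 2 * (μ * R ^ M) ^ 2 := by
    have : μ * (μ * R ^ M) ≤ (μ * R ^ M) * (μ * R ^ M) := by
      refine mul_le_mul_of_nonneg_right ?_ (by positivity)
      nlinarith
    nlinarith
  have e4 : ((Exc l M X).card : ℝ) * μ ^ 2
      ≤ (3 * R ^ (2 * M) + X / K * (1 + T) ^ M) * μ ^ 2 := by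
    have e5 : (μ * R ^ M) ^ 2 = R ^ (2 * M) * μ ^ 2 := by ring
    calc ((Exc l M X).card : ℝ) * μ ^ 2 ≤ _ := h
      _ ≤ (μ * R ^ M) ^ 2 + 2 * (μ * R ^ M) ^ 2 + X / K * (1 + T) ^ M * μ ^ 2 := by
          linarith
      _ = _ := by rw [e5]; ring
  exact le_of_mul_le_mul_right e4 (by positivity)

theorem uniform : ∃ C : ℝ, 0 < C ∧ ∀ l M X : ℕ, 1 ≤ M → 2 ≤ X →
    ((Exc l M X).card : ℝ)
      ≤ (l + 1) * (X : ℝ) ^ (1 - 1 / (2 * (M : ℝ) + 1)) * (C * Real.log X) ^ M := by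
  obtain ⟨c, hc, hbl⟩ := block_inv
  have hl2 : 0 < Real.log 2 := Real.log_pos (by norm_num)
  set C1 : ℝ := 1 / Real.log 2 + 1 / c with hC1
  have hC10 : 0 < C1 := by positivity
  set C : ℝ := 3 / Real.log 2 + 16 * C1 + 8 / Real.log 2 with hC
  have hC0 : 0 < C := by positivity
  refine ⟨C, hC0, ?_⟩
  intro l M X hM hX
  have hX2 : (2 : ℝ) ≤ X := by exact_mod_cast hX
  have hX0 : (0 : ℝ) < X := by linarith
  have hlX : Real.log 2 ≤ Real.log X := Real.log_le_log (by norm_num) hX2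
  have hlX0 : 0 < Real.log X := by linarith
  set R : ℝ := (X : ℝ) ^ (1 / (2 * (M : ℝ) + 1)) with hR
  have hR0 : 0 < R := Real.rpow_pos_of_pos hX0 _
  have hR1 : 1 ≤ R := Real.one_le_rpow (by linarith) (by positivity)
  have hRX : R ≤ X := by
    calc R ≤ (X : ℝ) ^ (1 : ℝ) := by
          refine Real.rpow_le_rpow_of_exponent_le (by linarith) ?_
          rw [div_le_one (by positivity)]
          have : (0 : ℝ) ≤ M := Nat.cast_nonneg _
          linarith
      _ = X := Real.rpow_one _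
  have hQ : (X : ℝ) ^ (1 - 1 / (2 * (M : ℝ) + 1)) = X / R := by
    rw [Real.rpow_sub hX0, Real.rpow_one]
  have hRp : R ^ (2 * M) = X / R := by
    rw [← hQ, hR, ← Real.rpow_natCast, ← Real.rpow_mul hX0.le]
    congr 1
    push_cast
    field_simp
    ring
  rw [hQ]
  have hXR : 0 < (X : ℝ) / R := by positivity
  set K : ℕ := ⌊R / (2 * 4 ^ M)⌋₊ with hKd
  have hpow4 : (0 : ℝ) < 4 ^ M := by positivity
  by_cases hcase : 1 ≤ K ∧ l ≤ K
  · obtain ⟨hK1, hlK⟩ := hcase
    have hK1' : (1 : ℝ) ≤ K := by exact_mod_cast hK1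
    have hKle : (K : ℝ) ≤ R / (2 * 4 ^ M) := Nat.floor_le (by positivity)
    have hKlt : R / (2 * 4 ^ M) < K + 1 := Nat.lt_floor_add_one _
    set B : Fin M → Finset ℕ := fun i => Bl (2 * K * 4 ^ (i : ℕ)) with hBd
    have hBm : ∀ i, ∀ p ∈ B i, p.Prime ∧ 2 * K * 4 ^ (i : ℕ) < p ∧ p ≤ 4 * (2 * K * 4 ^ (i : ℕ)) := by
      intro i p hp
      simp only [hBd, Bl, mem_filter, mem_Ioc] at hp
      exact ⟨hp.2, hp.1.1, hp.1.2⟩
    have hZR : ∀ i : Fin M, (4 * (2 * K * 4 ^ (i : ℕ)) : ℝ) ≤ R := by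
      intro i
      have h1 : (4 : ℝ) ^ ((i : ℕ) + 1) ≤ 4 ^ M := pow_le_pow_right₀ (by norm_num) i.2
      rw [le_div_iff₀ (by positivity)] at hKle
      calc (4 * (2 * K * 4 ^ (i : ℕ)) : ℝ) = K * (2 * 4 ^ ((i : ℕ) + 1)) := by ring
        _ ≤ K * (2 * 4 ^ M) := by gcongr
        _ ≤ R := hKle
    have hb := sm_bound (M := M) l K X (by omega) B ?_ ?_ R (Real.log X / c) hR1 ?_ ?_ ?_
    · -- conclusion
      have hone : 1 + Real.log X / c ≤ C1 * Real.log X := by
        rw [hC1]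
        have : 1 ≤ 1 / Real.log 2 * Real.log X := by
          rw [one_div, inv_mul_eq_div, le_div_iff₀ hl2, one_mul]; exact hlX
        have h2 : Real.log X / c = 1 / c * Real.log X := by ring
        rw [h2, add_mul]
        linarith
      have hXK : (X : ℝ) / K ≤ X / R * (4 * 4 ^ M) := by
        rw [div_le_iff₀ (by linarith)]
        have h3 : R ≤ K * (4 * 4 ^ M) := by
          rw [div_lt_iff₀ (by positivity)] at hKlt
          nlinarith
        calc (X : ℝ) = X / R * R := by field_simp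
          _ ≤ X / R * (K * (4 * 4 ^ M)) := by gcongr
          _ = _ := by ring
      rw [hRp] at hb
      have hpw : (1 + Real.log X / c) ^ M ≤ (C1 * Real.log X) ^ M :=
        pow_le_pow_left₀ (by positivity) hone M
      have h5 : (X : ℝ) / K * (1 + Real.log X / c) ^ M
          ≤ X / R * (4 * 4 ^ M) * (C1 * Real.log X) ^ M := by
        refine mul_le_mul hXK hpw (by positivity) (by positivity)
      have h6 : (4 : ℝ) * 4 ^ M * (C1 * Real.log X) ^ M ≤ (16 * C1 * Real.log X) ^ M := by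
        have : (4 : ℝ) ≤ 4 ^ M := by
          calc (4 : ℝ) = 4 ^ 1 := by norm_num
            _ ≤ 4 ^ M := pow_le_pow_right₀ (by norm_num) hM
        calc (4 : ℝ) * 4 ^ M * (C1 * Real.log X) ^ M ≤ 4 ^ M * 4 ^ M * (C1 * Real.log X) ^ M := by
              gcongr
          _ = (16 * C1 * Real.log X) ^ M := by
              rw [← mul_pow, ← mul_pow]; congr 1; ring
      have h7 : (3 : ℝ) ≤ (3 / Real.log 2 * Real.log X) ^ M := by
        have h8 : (3 : ℝ) ≤ 3 / Real.log 2 * Real.log X := by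
          rw [div_mul_eq_mul_div, le_div_iff₀ hl2]
          nlinarith
        calc (3 : ℝ) ≤ (3 / Real.log 2 * Real.log X) ^ 1 := by rw [pow_one]; exact h8
          _ ≤ _ := pow_le_pow_right₀ (by linarith) hM
      have h9 : (3 / Real.log 2 * Real.log X) ^ M + (16 * C1 * Real.log X) ^ M
          ≤ (3 / Real.log 2 * Real.log X + 16 * C1 * Real.log X) ^ M :=
        pow_add_pow_le (by positivity) (by positivity) (by omega)
      have h10 : (3 / Real.log 2 * Real.log X + 16 * C1 * Real.log X) ^ M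
          ≤ (C * Real.log X) ^ M := by
        refine pow_le_pow_left₀ (by positivity) ?_ M
        rw [hC]
        have : 0 ≤ 8 / Real.log 2 * Real.log X := by positivity
        nlinarith
      have h11 : ((Exc l M X).card : ℝ) ≤ X / R * (C * Real.log X) ^ M := by
        calc ((Exc l M X).card : ℝ) ≤ 3 * (X / R) + X / K * (1 + Real.log X / c) ^ M := hb
          _ ≤ 3 * (X / R) + X / R * (4 * 4 ^ M) * (C1 * Real.log X) ^ M := by linarith
          _ = X / R * (3 + 4 * 4 ^ M * (C1 * Real.log X) ^ M) := by ring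
          _ ≤ X / R * ((3 / Real.log 2 * Real.log X) ^ M + (16 * C1 * Real.log X) ^ M) := by
              gcongr
          _ ≤ X / R * (C * Real.log X) ^ M := by
              refine mul_le_mul_of_nonneg_left (h9.trans h10) hXR.le
      have h12 : 0 ≤ X / R * (C * Real.log X) ^ M := by positivity
      have h13 : (0 : ℝ) ≤ l := Nat.cast_nonneg _
      calc ((Exc l M X).card : ℝ) ≤ X / R * (C * Real.log X) ^ M := h11
        _ ≤ (l + 1) * (X / R * (C * Real.log X) ^ M) := by nlinarith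
        _ = _ := by ring
    · -- primes, l + K ≤ p
      intro i p hp
      obtain ⟨h1, h2, _⟩ := hBm i p hp
      refine ⟨h1, ?_⟩
      have h3 : 1 ≤ 4 ^ (i : ℕ) := Nat.one_le_pow _ _ (by norm_num)
      nlinarith
    · -- disjoint
      intro i j hij
      have key : ∀ i j : Fin M, i < j → Disjoint (B i) (B j) := by
        intro i j hlt
        rw [Finset.disjoint_left]
        intro p hp hq
        obtain ⟨_, _, h2⟩ := hBm i p hp
        obtain ⟨_, h3, _⟩ := hBm j p hq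
        have h4 : 4 ^ ((i : ℕ) + 1) ≤ 4 ^ (j : ℕ) := Nat.pow_le_pow_right (by norm_num) hlt
        have h5 : 4 * (2 * K * 4 ^ (i : ℕ)) = 2 * K * 4 ^ ((i : ℕ) + 1) := by ring
        have h6 : 2 * K * 4 ^ ((i : ℕ) + 1) ≤ 2 * K * 4 ^ (j : ℕ) := Nat.mul_le_mul_left _ h4
        omega
      rcases lt_or_gt_of_ne hij with h | h
      · exact key i j h
      · exact (key j i h).symm
    · intro i p hp
      obtain ⟨_, _, h2⟩ := hBm i p hp
      have h3 : (p : ℝ) ≤ (4 * (2 * K * 4 ^ (i : ℕ)) : ℝ) := by exact_mod_cast h2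
      exact h3.trans (hZR i)
    · intro i
      have h0 : 1 ≤ 2 * K * 4 ^ (i : ℕ) := Nat.mul_pos (by omega) (by positivity)
      have h1 := hbl (2 * K * 4 ^ (i : ℕ)) h0
      refine lt_of_lt_of_le ?_ h1
      have h0' : (1 : ℝ) ≤ ((2 * K * 4 ^ (i : ℕ) : ℕ) : ℝ) := by exact_mod_cast h0
      have : 0 < Real.log (4 * ((2 * K * 4 ^ (i : ℕ) : ℕ) : ℝ)) := Real.log_pos (by linarith)
      positivity
    · intro i
      have h0 : 1 ≤ 2 * K * 4 ^ (i : ℕ) := Nat.mul_pos (by omega) (by positivity)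
      have h1 := hbl (2 * K * 4 ^ (i : ℕ)) h0
      have h0' : (1 : ℝ) ≤ ((2 * K * 4 ^ (i : ℕ) : ℕ) : ℝ) := by exact_mod_cast h0
      have hlp : 0 < Real.log (4 * ((2 * K * 4 ^ (i : ℕ) : ℕ) : ℝ)) := Real.log_pos (by linarith)
      have hle : Real.log (4 * ((2 * K * 4 ^ (i : ℕ) : ℕ) : ℝ)) ≤ Real.log X := by
        refine Real.log_le_log (by linarith) ?_
        have := (hZR i).trans hRX
        push_cast
        exact this
      have hL0 : 0 < ∑ p ∈ B i, 1 / (p : ℝ) := lt_of_lt_of_le (by positivity) h1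
      rw [div_le_div_iff₀ hL0 hc, one_mul]
      have h2 : c ≤ (∑ p ∈ B i, 1 / (p : ℝ)) * Real.log (4 * ((2 * K * 4 ^ (i : ℕ) : ℕ) : ℝ)) := by
        rw [div_le_iff₀ hlp] at h1
        exact h1
      calc c ≤ _ := h2
        _ ≤ (∑ p ∈ B i, 1 / (p : ℝ)) * Real.log X := by gcongr
        _ = _ := mul_comm _ _
  · -- trivial case
    have hRl : R ≤ 2 * 4 ^ M * (l + 1) := by
      have hKlt : R / (2 * 4 ^ M) < K + 1 := Nat.lt_floor_add_one _
      have hKl : K + 1 ≤ l + 1 := by omega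
      have hKl' : (K : ℝ) + 1 ≤ l + 1 := by exact_mod_cast hKl
      rw [div_lt_iff₀ (by positivity)] at hKlt
      nlinarith
    have hcardX : ((Exc l M X).card : ℝ) ≤ X := by
      have : (Exc l M X).card ≤ (Finset.Ioc 0 X).card := by
        unfold Exc
        exact Finset.card_filter_le _ _
      rw [Nat.card_Ioc] at this
      exact_mod_cast this
    have h8 : (2 : ℝ) * 4 ^ M ≤ (C * Real.log X) ^ M := by
      have h1 : (2 : ℝ) ≤ 2 ^ M := by
        calc (2 : ℝ) = 2 ^ 1 := by norm_num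
          _ ≤ 2 ^ M := pow_le_pow_right₀ (by norm_num) hM
      have h2 : (8 : ℝ) ≤ C * Real.log X := by
        have h3 : (8 : ℝ) ≤ 8 / Real.log 2 * Real.log X := by
          rw [div_mul_eq_mul_div, le_div_iff₀ hl2]
          nlinarith
        have h4 : 0 ≤ (3 / Real.log 2 + 16 * C1) * Real.log X := by positivity
        rw [hC]
        nlinarith
      calc (2 : ℝ) * 4 ^ M ≤ 2 ^ M * 4 ^ M := by gcongr
        _ = 8 ^ M := by rw [← mul_pow]; norm_num
        _ ≤ (C * Real.log X) ^ M := pow_le_pow_left₀ (by norm_num) h2 M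
    calc ((Exc l M X).card : ℝ) ≤ X := hcardX
      _ = X / R * R := by field_simp
      _ ≤ X / R * (2 * 4 ^ M * (l + 1)) := by gcongr
      _ ≤ X / R * ((C * Real.log X) ^ M * (l + 1)) := by gcongr
      _ = _ := by ring

end Pool.Agent.W4helper65.NP
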