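import Pool.Agent.W4helper65.NP.Conc
import Pool.Agent.W4helper65.NP.Cheb

set_option autoImplicit false

namespace Pool.Agent.W4helper65.NP

open Finset Filter Topology N129f076f

/-- `∑_{y < p ≤ 4y} 1/p ≤ 4 log 4 / log y` -/
theorem block_inv_le (y : ℕ) (hy : 2 ≤ y) :
    ∑ p ∈ Bl y, 1 / (p : ℝ) ≤ 4 * Real.log 4 / Real.log y := by
  have hy' : (2 : ℝ) ≤ y := by exact_mod_cast hy
  have hly : 0 < Real.log y := Real.log_pos (by linarith)
  have h1 : ∀ p ∈ Bl y, 1 / (p : ℝ) ≤ Real.log p / (y * Real.log y) := by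
    intro p hp
    unfold Bl at hp
    rw [mem_filter, mem_Ioc] at hp
    have hp0 : (0 : ℝ) < p := by exact_mod_cast hp.2.pos
    have hpy : (y : ℝ) ≤ p := by exact_mod_cast hp.1.1.le
    have hlp : Real.log y ≤ Real.log p := Real.log_le_log (by linarith) hpy
    rw [div_le_div_iff₀ hp0 (by positivity), one_mul]
    calc (y : ℝ) * Real.log y ≤ p * Real.log p := by gcongr
      _ = _ := mul_comm _ _
  have h2 := Finset.sum_le_sum h1
  rw [← Finset.sum_div, ← theta_diff] at h2
  refine h2.trans ?_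
  have h3 := Chebyshev.theta_le_log4_mul_x (x := ((4 * y : ℕ) : ℝ)) (Nat.cast_nonneg _)
  have h4 := Chebyshev.theta_nonneg (y : ℝ)
  rw [div_le_div_iff₀ (by positivity) hly]
  push_cast at h3 ⊢
  have h5 : Chebyshev.theta (4 * (y : ℝ)) - Chebyshev.theta y ≤ Real.log 4 * (4 * y) := by linarith
  calc _ ≤ Real.log 4 * (4 * y) * Real.log y := by gcongr
    _ = _ := by ring

/-- `∑_{p ≤ 4^{J+1}} 1/p ≤ 8 + 4 log (J+1)`-type bound -/
theorem sum_primes_le (J : ℕ) :
    ∑ p ∈ (Finset.Ioc 0 (4 ^ (J + 1))).filter Nat.Prime, 1 / (p : ℝ)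
      ≤ 1 + 4 * ∑ j ∈ Finset.range J, 1 / ((j : ℝ) + 1) := by
  induction J with
  | zero =>
    have : (Finset.Ioc 0 (4 ^ (0 + 1))).filter Nat.Prime = {2, 3} := by decide
    rw [this]
    norm_num
  | succ J ih =>
    have hsplit : (Finset.Ioc 0 (4 ^ (J + 1 + 1))).filter Nat.Prime
        = (Finset.Ioc 0 (4 ^ (J + 1))).filter Nat.Prime ∪ Bl (4 ^ (J + 1)) := by
      unfold Bl
      rw [← Finset.filter_union]
      congr 1
      have : 4 ^ (J + 1 + 1) = 4 * 4 ^ (J + 1) := by ring
      rw [this, Finset.Ioc_union_Ioc_eq_Ioc (by omega) (by omega)]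
    rw [hsplit, Finset.sum_union]
    · have h4 : 2 ≤ 4 ^ (J + 1) := by
        calc 2 ≤ 4 ^ 1 := by norm_num
          _ ≤ 4 ^ (J + 1) := Nat.pow_le_pow_right (by norm_num) (by omega)
      have hb := block_inv_le (4 ^ (J + 1)) h4
      have hl4 : 0 < Real.log 4 := Real.log_pos (by norm_num)
      have e : 4 * Real.log 4 / Real.log ((4 ^ (J + 1) : ℕ) : ℝ) = 4 * (1 / ((J : ℝ) + 1)) := by
        push_cast
        rw [Real.log_pow]
        push_cast
        field_simp
      rw [e] at hb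
      rw [Finset.sum_range_succ]
      linarith
    · rw [Finset.disjoint_left]
      intro n h1 h2
      unfold Bl at h2
      simp only [mem_filter, mem_Ioc] at h1 h2
      omega

theorem harm_le (J : ℕ) : ∑ j ∈ Finset.range J, 1 / ((j : ℝ) + 1) ≤ 1 + Real.log (J + 1) := by
  have h := harmonic_le_one_add_log J
  unfold harmonic at h
  push_cast at h
  have h2 : Real.log J ≤ Real.log (J + 1) := by
    rcases Nat.eq_zero_or_pos J with h0 | h0
    · subst h0; simp
    · have : (0 : ℝ) < J := by exact_mod_cast h0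
      exact Real.log_le_log this (by linarith)
  calc ∑ j ∈ Finset.range J, 1 / ((j : ℝ) + 1) = ∑ j ∈ Finset.range J, ((j : ℝ) + 1)⁻¹ := by
        simp only [one_div]
    _ ≤ 1 + Real.log J := h
    _ ≤ _ := by linarith

/-- `∑_{p ≤ Y} 1/p ≤ 5 + 4 log (log Y + 1)` -/
theorem sum_primes (Y : ℕ) (hY : 1 ≤ Y) :
    ∑ p ∈ (Finset.Ioc 0 Y).filter Nat.Prime, 1 / (p : ℝ) ≤ 5 + 4 * Real.log (Real.log Y + 1) := by
  set J := Nat.log 4 Y with hJ
  have h1 : Y < 4 ^ (J + 1) := Nat.lt_pow_succ_log_self (by norm_num) Y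
  have h2 : 4 ^ J ≤ Y := Nat.pow_log_le_self 4 (by omega)
  have hsub : (Finset.Ioc 0 Y).filter Nat.Prime ⊆ (Finset.Ioc 0 (4 ^ (J + 1))).filter Nat.Prime := by
    refine Finset.filter_subset_filter _ (Finset.Ioc_subset_Ioc_right h1.le)
  have h3 : (J : ℝ) ≤ Real.log Y := by
    have h4 : (J : ℝ) * Real.log 4 ≤ Real.log Y := by
      rw [← Real.log_pow]
      refine Real.log_le_log (by positivity) ?_
      exact_mod_cast h2
    have h5 : 1 ≤ Real.log 4 := by
      rw [show (4 : ℝ) = 2 ^ 2 by norm_num, Real.log_pow]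
      have := Real.log_two_gt_d9
      push_cast
      linarith
    have h6 : (0 : ℝ) ≤ J := Nat.cast_nonneg _
    nlinarith
  calc ∑ p ∈ (Finset.Ioc 0 Y).filter Nat.Prime, 1 / (p : ℝ)
      ≤ ∑ p ∈ (Finset.Ioc 0 (4 ^ (J + 1))).filter Nat.Prime, 1 / (p : ℝ) :=
        Finset.sum_le_sum_of_subset_of_nonneg hsub (fun _ _ _ => by positivity)
    _ ≤ 1 + 4 * ∑ j ∈ Finset.range J, 1 / ((j : ℝ) + 1) := sum_primes_le J
    _ ≤ 1 + 4 * (1 + Real.log (J + 1)) := by
        have := harm_le J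
        linarith
    _ ≤ _ := by
        have : Real.log ((J : ℝ) + 1) ≤ Real.log (Real.log Y + 1) :=
          Real.log_le_log (by positivity) (by linarith)
        linarith

/-- Rankin-type bound for the number of `m ≤ Y` with at least `M` distinct prime factors. -/
theorem many_primes (Y M : ℕ) (B : ℝ) (hB : 1 ≤ B) :
    (((Finset.Ioc 0 Y).filter (fun m => M ≤ m.primeFactors.card)).card : ℝ) * B ^ M
      ≤ Y * Real.exp (B * ∑ p ∈ (Finset.Ioc 0 Y).filter Nat.Prime, 1 / (p : ℝ)) := by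
  classical
  set P := (Finset.Ioc 0 Y).filter Nat.Prime with hP
  have h1 : (((Finset.Ioc 0 Y).filter (fun m => M ≤ m.primeFactors.card)).card : ℝ) * B ^ M
      ≤ ∑ m ∈ Finset.Ioc 0 Y, ∏ p ∈ P, (1 + if p ∣ m then (B - 1) else 0) := by
    calc (((Finset.Ioc 0 Y).filter (fun m => M ≤ m.primeFactors.card)).card : ℝ) * B ^ M
        = ∑ m ∈ (Finset.Ioc 0 Y).filter (fun m => M ≤ m.primeFactors.card), B ^ M := by
          rw [Finset.sum_const, nsmul_eq_mul]
      _ ≤ ∑ m ∈ (Finset.Ioc 0 Y).filter (fun m => M ≤ m.primeFactors.card),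
            ∏ p ∈ P, (1 + if p ∣ m then (B - 1) else 0) := by
          refine Finset.sum_le_sum fun m hm => ?_
          rw [mem_filter, mem_Ioc] at hm
          have e1 : ∏ p ∈ P, (1 + if p ∣ m then (B - 1) else 0) = B ^ m.primeFactors.card := by
            have e2 : ∀ p ∈ P, (1 + if p ∣ m then (B - 1) else 0) = if p ∣ m then B else 1 := by
              intro p _
              split_ifs <;> ring
            rw [Finset.prod_congr rfl e2, Finset.prod_ite, Finset.prod_const, Finset.prod_const_one,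
              mul_one]
            congr 2
            ext p
            simp only [hP, mem_filter, mem_Ioc, Nat.mem_primeFactors]
            constructor
            · rintro ⟨⟨_, hp⟩, hd⟩
              exact ⟨hp, hd, by omega⟩
            · rintro ⟨hp, hd, _⟩
              exact ⟨⟨⟨hp.pos, (Nat.le_of_dvd (by omega) hd).trans hm.1.2⟩, hp⟩, hd⟩
          rw [e1]
          exact pow_le_pow_right₀ hB hm.2
      _ ≤ _ := by
          refine Finset.sum_le_sum_of_subset_of_nonneg (Finset.filter_subset _ _) fun m _ _ => ?_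
          refine Finset.prod_nonneg fun p _ => ?_
          split_ifs <;> linarith
  have h2 : ∑ m ∈ Finset.Ioc 0 Y, ∏ p ∈ P, (1 + if p ∣ m then (B - 1) else 0)
      ≤ Y * ∏ p ∈ P, (1 + (B - 1) * (1 / (p : ℝ))) := by
    simp_rw [Finset.prod_one_add]
    rw [Finset.sum_comm, Finset.mul_sum]
    refine Finset.sum_le_sum fun S hS => ?_
    rw [Finset.mem_powerset] at hS
    have hSp : ∀ p ∈ S, p.Prime := fun p hp => (mem_filter.1 (hS hp)).2
    have e1 : ∀ m ∈ Finset.Ioc 0 Y, ∏ p ∈ S, (if p ∣ m then (B - 1) else 0)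
        = if (∏ p ∈ S, p) ∣ m then (B - 1) ^ S.card else 0 := by
      intro m _
      by_cases hd : (∏ p ∈ S, p) ∣ m
      · rw [if_pos hd]
        rw [Finset.prod_congr rfl (g := fun _ => B - 1), Finset.prod_const]
        intro p hp
        rw [if_pos ((Finset.dvd_prod_of_mem _ hp).trans hd)]
      · rw [if_neg hd]
        have : ∃ p ∈ S, ¬ p ∣ m := by
          by_contra hcon
          push Not at hcon
          exact hd (Finset.prod_primes_dvd m (fun p hp => (hSp p hp).prime) hcon)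
        obtain ⟨p, hp, hnd⟩ := this
        exact Finset.prod_eq_zero hp (if_neg hnd)
    rw [Finset.sum_congr rfl e1, ← Finset.sum_filter, Finset.sum_const, nsmul_eq_mul,
      Finset.prod_mul_distrib, Finset.prod_const]
    have hpos : 0 < ∏ p ∈ S, p := Finset.prod_pos fun p hp => (hSp p hp).pos
    have e2 : (((Finset.Ioc 0 Y).filter (fun m => (∏ p ∈ S, p) ∣ m)).card : ℝ)
        ≤ Y * ∏ p ∈ S, (1 / (p : ℝ)) := by
      rw [Nat.Ioc_filter_dvd_card_eq_div]
      refine Nat.cast_div_le.trans (le_of_eq ?_)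
      push_cast
      simp only [one_div, Finset.prod_inv_distrib]
      rw [div_eq_mul_inv]
    have hB0 : (0 : ℝ) ≤ (B - 1) ^ S.card := pow_nonneg (by linarith) _
    calc _ ≤ (Y * ∏ p ∈ S, (1 / (p : ℝ))) * (B - 1) ^ S.card := by gcongr
      _ = _ := by ring
  refine h1.trans (h2.trans ?_)
  refine mul_le_mul_of_nonneg_left ?_ (Nat.cast_nonneg _)
  rw [Finset.mul_sum, Real.exp_sum]
  refine Finset.prod_le_prod (fun p _ => by
    have : (0 : ℝ) ≤ (B - 1) * (1 / (p : ℝ)) := mul_nonneg (by linarith) (by positivity)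
    linarith) fun p _ => ?_
  have h3 : (B - 1) * (1 / (p : ℝ)) ≤ B * (1 / (p : ℝ)) := by
    have : (0 : ℝ) ≤ 1 / (p : ℝ) := by positivity
    nlinarith
  have h4 := Real.add_one_le_exp (B * (1 / (p : ℝ)))
  linarith

end Pool.Agent.W4helper65.NP
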