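import Pool.Agent.W4helper65.NP.Up
import Pool.Agent.W4helper65.NP.Alm

set_option autoImplicit false

namespace Pool.Agent.W4helper65.NP

open Finset Filter Topology N129f076f

/-- the set of `n ≤ X` with `v_0(n) ≥ M` -/
noncomputable def Big (M X : ℕ) : Finset ℕ := by
  classical exact (Finset.Ioc 0 X).filter (fun n => (M : ℕ∞) ≤ v₀ n)

theorem exists_k (n M : ℕ) (hM : 1 ≤ M) (h : (M : ℕ∞) ≤ v₀ n) : ∃ k, M ≤ v n k := by
  by_contra hcon
  push Not at hcon
  have h1 : v₀ n ≤ ((M - 1 : ℕ) : ℕ∞) := by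
    unfold v₀
    refine iSup_le fun k => ?_
    have := hcon k
    exact_mod_cast (show v n k ≤ M - 1 by omega)
  have h2 : (M : ℕ∞) ≤ ((M - 1 : ℕ) : ℕ∞) := h.trans h1
  have h3 : M ≤ M - 1 := by exact_mod_cast h2
  omega

theorem pow_le (n k M : ℕ) (hn : 0 < n) (h : M ≤ v n k) :
    (k + 1) ^ M ≤ n + k ∧ M ≤ (n + k).primeFactors.card := by
  have hc : v n k ≤ (n + k).primeFactors.card := by
    unfold v; exact Finset.card_filter_le _ _
  refine ⟨?_, h.trans hc⟩
  set S := (n + k).primeFactors.filter (fun p => ∀ i ∈ range k, ¬ p ∣ n + i) with hS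
  have hSc : S.card = v n k := rfl
  have h1 : ∀ p ∈ S, k + 1 ≤ p := by
    intro p hp
    rw [hS, mem_filter] at hp
    by_contra hlt
    have hpd := Nat.dvd_of_mem_primeFactors hp.1
    have hpp := Nat.prime_of_mem_primeFactors hp.1
    have hp0 := hpp.pos
    refine hp.2 (k - p) (mem_range.2 (by omega)) ?_
    have : n + (k - p) = n + k - p := by omega
    rw [this]
    exact Nat.dvd_sub hpd dvd_rfl
  calc (k + 1) ^ M ≤ (k + 1) ^ S.card := Nat.pow_le_pow_right (by omega) (by omega)
    _ ≤ ∏ p ∈ S, p := by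
        rw [← Finset.prod_const]
        exact Finset.prod_le_prod' h1
    _ ≤ ∏ p ∈ (n + k).primeFactors, p := by
        refine Finset.prod_le_prod_of_subset_of_one_le' (Finset.filter_subset _ _) fun p hp _ => ?_
        exact (Nat.prime_of_mem_primeFactors hp).one_lt.le
    _ ≤ n + k := Nat.le_of_dvd (by omega) (Nat.prod_primeFactors_dvd _)

theorem big_le (M X : ℕ) (hM : 2 ≤ M) (hX : 1 ≤ X) (B : ℝ) (hB : 1 ≤ B) :
    ((Big M X).card : ℝ) * B ^ M ≤ (2 * X : ℝ) ^ (1 / (M : ℝ)) * (2 * X) *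
      Real.exp (B * (5 + 4 * Real.log (Real.log (2 * X) + 1))) := by
  classical
  set H : ℕ := ⌊(2 * X : ℝ) ^ (1 / (M : ℝ))⌋₊ with hH
  have hX1 : (1 : ℝ) ≤ X := by exact_mod_cast hX
  have hM0 : (0 : ℝ) < M := by exact_mod_cast (show 0 < M by omega)
  set W := (Finset.Ioc 0 (2 * X)).filter (fun m => M ≤ m.primeFactors.card) with hW
  have hsub : Big M X ⊆ (Finset.range H).biUnion
      (fun k => (Finset.Ioc 0 X).filter (fun n => n + k ∈ W)) := by
    intro n hn
    unfold Big at hn
    rw [mem_filter, mem_Ioc] at hn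
    obtain ⟨k, hk⟩ := exists_k n M (by omega) hn.2
    obtain ⟨h1, h2⟩ := pow_le n k M hn.1.1 hk
    have h3 : k < n := by
      by_contra hge
      push Not at hge
      have : (k + 1) ^ 2 ≤ (k + 1) ^ M := Nat.pow_le_pow_right (by omega) hM
      nlinarith
    have h4 : (k + 1) ^ M ≤ 2 * X := by omega
    have h5 : k + 1 ≤ H := by
      rw [hH]
      refine Nat.le_floor ?_
      have h6 : ((k + 1 : ℕ) : ℝ) ^ M ≤ 2 * X := by exact_mod_cast h4
      calc ((k + 1 : ℕ) : ℝ) = (((k + 1 : ℕ) : ℝ) ^ M) ^ (1 / (M : ℝ)) := by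
            rw [← Real.rpow_natCast, ← Real.rpow_mul (Nat.cast_nonneg _), mul_one_div,
              div_self hM0.ne', Real.rpow_one]
        _ ≤ _ := Real.rpow_le_rpow (by positivity) h6 (by positivity)
    rw [mem_biUnion]
    refine ⟨k, mem_range.2 (by omega), ?_⟩
    rw [mem_filter, mem_Ioc, hW, mem_filter, mem_Ioc]
    exact ⟨hn.1, ⟨by omega, by omega⟩, h2⟩
  have h1 : (Big M X).card ≤ H * W.card := by
    refine (Finset.card_le_card hsub).trans ?_
    refine (Finset.card_biUnion_le).trans ?_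
    calc ∑ k ∈ Finset.range H, ((Finset.Ioc 0 X).filter (fun n => n + k ∈ W)).card
        ≤ ∑ _k ∈ Finset.range H, W.card := by
          refine Finset.sum_le_sum fun k _ => ?_
          refine Finset.card_le_card_of_injOn (fun n => n + k) ?_ ?_
          · intro n hn
            simp only [coe_filter, Set.mem_setOf_eq] at hn
            exact hn.2
          · intro a _ b _ hab
            simpa using hab
      _ = H * W.card := by rw [Finset.sum_const, card_range, smul_eq_mul]
  have h2 := many_primes (2 * X) M B hB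
  rw [← hW] at h2
  have h3 := sum_primes (2 * X) (by omega)
  have hHle : (H : ℝ) ≤ (2 * X : ℝ) ^ (1 / (M : ℝ)) := Nat.floor_le (by positivity)
  have hBM : (0 : ℝ) ≤ B ^ M := by positivity
  have h1' : ((Big M X).card : ℝ) ≤ H * W.card := by exact_mod_cast h1
  calc ((Big M X).card : ℝ) * B ^ M ≤ (H * W.card) * B ^ M := by gcongr
    _ = H * (W.card * B ^ M) := by ring
    _ ≤ (2 * X : ℝ) ^ (1 / (M : ℝ)) * (((2 * X : ℕ) : ℝ) *
        Real.exp (B * ∑ p ∈ (Finset.Ioc 0 (2 * X)).filter Nat.Prime, 1 / (p : ℝ))) := by gcongr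
    _ ≤ (2 * X : ℝ) ^ (1 / (M : ℝ)) * (((2 * X : ℕ) : ℝ) *
        Real.exp (B * (5 + 4 * Real.log (Real.log ((2 * X : ℕ) : ℝ) + 1)))) := by gcongr
    _ = _ := by push_cast; ring

theorem lim_x : Tendsto (fun X : ℕ => (√(Real.log (Real.log (X : ℝ))))⁻¹) atTop (𝓝 0) := by
  have h : Tendsto (fun x : ℝ => √x) atTop atTop := by
    simp_rw [Real.sqrt_eq_rpow]
    exact tendsto_rpow_atTop (by norm_num)
  exact tendsto_inv_atTop_zero.comp (h.comp lim_t)

theorem lim_y : Tendsto (fun X : ℕ => Real.log (Real.log (Real.log (X : ℝ))) /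
    Real.log (Real.log (X : ℝ))) atTop (𝓝 0) := by
  have h1 : Tendsto (fun s : ℝ => Real.log s / s) atTop (𝓝 0) :=
    Real.isLittleO_log_id_atTop.tendsto_div_nhds_zero
  exact h1.comp lim_t

theorem lim_B : Tendsto (fun X : ℕ => √(Real.log (X : ℝ)) / Real.log (Real.log (X : ℝ)))
    atTop atTop := by
  have h0 : (fun s : ℝ => Real.log s) =o[atTop] (fun s : ℝ => s ^ (1 / 2 : ℝ)) :=
    isLittleO_log_rpow_atTop (by norm_num)
  have h1 := h0.tendsto_div_nhds_zero
  have h2 : Tendsto (fun s : ℝ => (s ^ (1 / 2 : ℝ)) / Real.log s) atTop atTop := by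
    have h3 : Tendsto (fun s : ℝ => Real.log s / s ^ (1 / 2 : ℝ)) atTop (𝓝[>] 0) := by
      rw [tendsto_nhdsWithin_iff]
      refine ⟨h1, ?_⟩
      filter_upwards [eventually_gt_atTop 1] with s hs
      have := Real.log_pos hs
      exact Set.mem_Ioi.2 (by positivity)
    have h4 := tendsto_inv_nhdsGT_zero.comp h3
    refine h4.congr fun s => ?_
    simp only [Function.comp, inv_div]
  have h5 := h2.comp lim_s
  refine h5.congr fun X => ?_
  simp only [Function.comp, Real.sqrt_eq_rpow]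

theorem upper (D γ : ℝ) (hD : 0 < D) (h : γ + 1 / D < D / 2) :
    ∃ X₀ : ℕ, ∀ X ≥ X₀,
      ((Big ⌈D * √(Real.log X / Real.log (Real.log X))⌉₊ X).card : ℝ)
        ≤ X * Real.exp (-(γ * √(Real.log X * Real.log (Real.log X)))) := by
  set G : ℕ → ℝ := fun X =>
    Real.log 2 * (√(Real.log (X : ℝ) * Real.log (Real.log (X : ℝ))))⁻¹ + 1 / D
      + Real.log 2 / D * (Real.log (Real.log (X : ℝ)) /
          √(Real.log (X : ℝ) * Real.log (Real.log (X : ℝ))))
      + 13 * (√(Real.log (Real.log (X : ℝ))))⁻¹ - D / 2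
      + D * (Real.log (Real.log (Real.log (X : ℝ))) / Real.log (Real.log (X : ℝ))) with hG
  have hGl : Tendsto G atTop (𝓝 (Real.log 2 * 0 + 1 / D + Real.log 2 / D * 0 + 13 * 0 - D / 2
      + D * 0)) := by
    exact (((((lim_q.const_mul _).add_const _).add (lim_r.const_mul _)).add
      (lim_x.const_mul _)).sub_const _).add (lim_y.const_mul _)
  have hneg : Real.log 2 * 0 + 1 / D + Real.log 2 / D * 0 + 13 * 0 - D / 2 + D * 0 < -γ := by
    linarith
  have hev := hGl.eventually_lt_const hneg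
  have hr1 : ∀ᶠ X : ℕ in atTop, Real.log (Real.log (X : ℝ)) /
    √(Real.log (X : ℝ) * Real.log (Real.log (X : ℝ))) < D := lim_r.eventually_lt_const hD
  have hev2 := (((hev.and (lim_s.eventually_gt_atTop 1)).and
    ((lim_t.eventually_gt_atTop 2).and (eventually_ge_atTop 2))).and
    (lim_B.eventually_gt_atTop 1)).and hr1
  obtain ⟨X₀, hX₀⟩ := eventually_atTop.1 hev2
  refine ⟨X₀, ?_⟩
  intro X hX
  obtain ⟨⟨⟨⟨hg, hs⟩, ht, hX2⟩, hB1⟩, hr2⟩ := hX₀ X hX
  simp only [hG] at hg
  set s := Real.log (X : ℝ) with hsd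
  set t := Real.log s with htd
  set u := √(s * t) with hud
  have hs0 : 0 < s := by linarith
  have ht0 : 0 < t := by linarith
  have hu : 0 < u := Real.sqrt_pos.2 (by positivity)
  have huu : u * u = s * t := Real.mul_self_sqrt (by positivity)
  have hX0 : (0 : ℝ) < X := by exact_mod_cast (show 0 < X by omega)
  have hX2' : (2 : ℝ) ≤ X := by exact_mod_cast hX2
  have hut : √(s / t) = u / t := by
    rw [Real.sqrt_div' _ ht0.le, hud, Real.sqrt_mul hs0.le]
    have p1 : 0 < √t := Real.sqrt_pos.2 ht0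
    have e : t = √t * √t := (Real.mul_self_sqrt ht0.le).symm
    rw [div_eq_div_iff p1.ne' ht0.ne']
    nth_rewrite 1 [e]
    ring
  have hsu : √s = u * (√t)⁻¹ := by
    rw [hud, Real.sqrt_mul hs0.le]
    have p1 : 0 < √t := Real.sqrt_pos.2 ht0
    field_simp
  rw [hut]
  set M : ℕ := ⌈D * (u / t)⌉₊ with hM
  have hMge : D * (u / t) ≤ M := Nat.le_ceil _
  have hM2 : 2 ≤ M := by
    have h1 : 1 < D * (u / t) := by
      rw [div_lt_iff₀ hu] at hr2
      rw [mul_div_assoc', lt_div_iff₀ ht0]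
      linarith
    have h2 : 1 < M := by
      rw [hM]
      exact Nat.lt_ceil.2 (by exact_mod_cast h1)
    omega
  have hM0 : (0 : ℝ) < M := by exact_mod_cast (show 0 < M by omega)
  set B : ℝ := √s / t with hBd
  have hB0 : 0 < B := by linarith
  have hb := big_le M X hM2 (by omega) B hB1.le
  -- log B
  have hlogB : Real.log B = t / 2 - Real.log t := by
    rw [hBd, Real.log_div (Real.sqrt_pos.2 hs0).ne' ht0.ne', Real.log_sqrt hs0.le]
  have hlogB0 : 0 < t / 2 - Real.log t := by rw [← hlogB]; exact Real.log_pos hB1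
  have hBM : B ^ M = Real.exp (M * (t / 2 - Real.log t)) := by
    rw [← hlogB, ← Real.log_pow, Real.exp_log (by positivity)]
  have hl2 : Real.log 2 ≤ 1 := by
    have := Real.log_two_lt_d9
    linarith
  have hl2X : Real.log (2 * X) = Real.log 2 + s := by
    rw [Real.log_mul (by norm_num) hX0.ne']
  have hsum : 5 + 4 * Real.log (Real.log (2 * X) + 1) ≤ 13 * t := by
    have h1 : Real.log (2 * X) + 1 ≤ 3 * s := by rw [hl2X]; linarith
    have h2 : Real.log (Real.log (2 * X) + 1) ≤ Real.log (3 * s) := by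
      refine Real.log_le_log ?_ h1
      rw [hl2X]
      have : 0 < Real.log 2 := Real.log_pos (by norm_num)
      linarith
    have h3 : Real.log (3 * s) = Real.log 3 + t := by
      rw [Real.log_mul (by norm_num) hs0.ne']
    have h4 : Real.log 3 ≤ 2 := by
      have := Real.log_le_sub_one_of_pos (show (0 : ℝ) < 3 by norm_num)
      linarith
    rw [h3] at h2
    linarith
  have hBS : B * (5 + 4 * Real.log (Real.log (2 * X) + 1)) ≤ 13 * √s := by
    calc B * (5 + 4 * Real.log (Real.log (2 * X) + 1)) ≤ B * (13 * t) := by gcongr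
      _ = 13 * √s := by rw [hBd]; field_simp
  have hroot : (2 * X : ℝ) ^ (1 / (M : ℝ)) ≤ Real.exp (u / D + Real.log 2 / D * (t / u)) := by
    rw [Real.rpow_def_of_pos (by positivity), hl2X]
    refine Real.exp_le_exp.2 ?_
    have h1 : 1 / (M : ℝ) ≤ 1 / (D * (u / t)) := by
      refine one_div_le_one_div_of_le (by positivity) hMge
    have h0 : 0 ≤ Real.log 2 + s := by
      have : 0 < Real.log 2 := Real.log_pos (by norm_num)
      linarith
    calc (Real.log 2 + s) * (1 / (M : ℝ)) ≤ (Real.log 2 + s) * (1 / (D * (u / t))) := by gcongr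
      _ = (s * t) / (D * u) + Real.log 2 / D * (t / u) := by field_simp; ring
      _ = u / D + Real.log 2 / D * (t / u) := by rw [← huu]; field_simp
  have hexpM : Real.exp (D * (u / t) * (t / 2 - Real.log t)) ≤ B ^ M := by
    rw [hBM]
    refine Real.exp_le_exp.2 ?_
    gcongr
  have hfin : ((Big M X).card : ℝ) * Real.exp (D * (u / t) * (t / 2 - Real.log t))
      ≤ X * Real.exp (Real.log 2 + (u / D + Real.log 2 / D * (t / u)) + 13 * √s) := by
    calc ((Big M X).card : ℝ) * Real.exp (D * (u / t) * (t / 2 - Real.log t))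
        ≤ ((Big M X).card : ℝ) * B ^ M := by gcongr
      _ ≤ (2 * X : ℝ) ^ (1 / (M : ℝ)) * (2 * X) *
          Real.exp (B * (5 + 4 * Real.log (Real.log (2 * X) + 1))) := hb
      _ ≤ Real.exp (u / D + Real.log 2 / D * (t / u)) * (2 * X) * Real.exp (13 * √s) := by
          gcongr
      _ = _ := by
          rw [Real.exp_add (Real.log 2 + (u / D + Real.log 2 / D * (t / u))) (13 * √s),
            Real.exp_add (Real.log 2) (u / D + Real.log 2 / D * (t / u)),
            Real.exp_log (show (0 : ℝ) < 2 by norm_num)]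
          ring
  have hfin2 : ((Big M X).card : ℝ) ≤ X * Real.exp (Real.log 2 + (u / D + Real.log 2 / D * (t / u))
      + 13 * √s - D * (u / t) * (t / 2 - Real.log t)) := by
    rw [Real.exp_sub, mul_div_assoc', le_div_iff₀ (Real.exp_pos _)]
    exact hfin
  refine hfin2.trans ?_
  refine mul_le_mul_of_nonneg_left ?_ hX0.le
  refine Real.exp_le_exp.2 ?_
  have e7 : Real.log 2 + (u / D + Real.log 2 / D * (t / u)) + 13 * √s
      - D * (u / t) * (t / 2 - Real.log t) = (Real.log 2 * u⁻¹ + 1 / D + Real.log 2 / D * (t / u)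
      + 13 * (√t)⁻¹ - D / 2 + D * (Real.log t / t)) * u - Real.log 2 / D * (t / u) * (u - 1) := by
    rw [hsu]
    field_simp
    ring
  rw [e7]
  have hu1 : 1 ≤ u := by
    rw [hud]
    refine Real.one_le_sqrt.2 ?_
    nlinarith
  have h9 : 0 ≤ Real.log 2 / D * (t / u) * (u - 1) := by
    have h10 : 0 < Real.log 2 := Real.log_pos (by norm_num)
    have h11 : 0 ≤ u - 1 := by linarith
    positivity
  have h12 := mul_le_mul_of_nonneg_right hg.le hu.le
  linarith

end Pool.Agent.W4helper65.NP
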